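import Mathlib

/-!
ZM-groups and relative subgroup commutativity degrees.
-/

open scoped Pointwise

namespace Pool.Agent.MP_93267c_al

/-- The relative subgroup commutativity degree `sd(H,G)`. -/
noncomputable def sd {G : Type} [Group G] (H : Subgroup G) : ℚ :=
  (Nat.card {p : Subgroup G × Subgroup G //
      p.1 ≤ H ∧ (p.1 : Set G) * (p.2 : Set G) = (p.2 : Set G) * (p.1 : Set G)} : ℚ) /
    ((Nat.card {K : Subgroup G // K ≤ H} : ℚ) * (Nat.card (Subgroup G) : ℚ))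

/-- The relators `a^m`, `b^n`, `b⁻¹ a b a^{-r}` (with `a = of true`, `b = of false`). -/
def rels (m n : ℕ) (r : ℤ) : Set (FreeGroup Bool) :=
  {FreeGroup.of true ^ m, FreeGroup.of false ^ n,
    (FreeGroup.of false)⁻¹ * FreeGroup.of true * FreeGroup.of false * (FreeGroup.of true ^ r)⁻¹}

/-- The subgroup `H_{(m₁,n₁,s)}` of `ZM(m,n,r)`: generated by (in fact equal to) the union of the
cosets `(b^{n₁} a^s)^k ⟨a^{m₁}⟩`, `1 ≤ k ≤ n/n₁`. -/
def subH (m n : ℕ) (r : ℤ) (m₁ n₁ s : ℕ) : Subgroup (PresentedGroup (rels m n r)) :=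
  Subgroup.closure (⋃ k ∈ Set.Icc 1 (n / n₁),
    {g | ∃ y ∈ Subgroup.zpowers (PresentedGroup.of true ^ m₁ : PresentedGroup (rels m n r)),
      g = (PresentedGroup.of false ^ n₁ * PresentedGroup.of true ^ s) ^ k * y})

/-- `(p^{k+1} - 1)/(p - 1)`. -/
def geo (p k : ℕ) : ℚ := ((p : ℚ) ^ (k + 1) - 1) / ((p : ℚ) - 1)

/-- The local factor counting subgroups: `k + 1` if `p ∣ c`, else `(p^{k+1} - 1)/(p - 1)`. -/
def loc (p k : ℕ) (c : ℤ) : ℚ := if (p : ℤ) ∣ c then (k : ℚ) + 1 else geo p k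

/-- The local factor counting permuting pairs. -/
def locPair (p α β : ℕ) (c c' : ℤ) : ℚ :=
  if (p : ℤ) ∣ c ∨ (p : ℤ) ∣ c' then loc p (α - β) c * loc p α c'
  else ((β : ℚ) + 1) * geo p (α - β) +
    2 * (((α - β : ℕ) : ℚ) * (p : ℚ) ^ (α - β + 2) - (((α - β : ℕ) : ℚ) + 1) * (p : ℚ) ^ (α - β + 1) + p) /
      ((p : ℚ) - 1) ^ 2

end Pool.Agent.MP_93267c_al
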